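import Mathlib

/-!
# Doubly irreducible elements and critical pairs in irreducible posets

In a finite irreducible poset the first elements of the critical pairs are exactly the
meet-irreducible elements and the second elements are exactly the join-irreducible elements. In
particular every doubly irreducible element is the first element of a critical pair and the second
element of a critical pair.
-/

set_option autoImplicit false

namespace Pool.Agent.Results.MP_ba261c_co.FirstAndSecond

section defs

variable {P : Type*} [PartialOrder P]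

/-- The relation `r` is (the order of) a linear extension of `P`. -/
structure IsLinearExtension (r : P → P → Prop) : Prop where
  refl : ∀ a, r a a
  trans : ∀ a b c, r a b → r b c → r a c
  antisymm : ∀ a b, r a b → r b a → a = b
  total : ∀ a b, r a b ∨ r b a
  extends_le : ∀ a b, a ≤ b → r a b

variable (P) in
/-- There are `k` linear extensions of `P` whose intersection is the order of `P`. -/
def HasRealizer (k : ℕ) : Prop :=
  ∃ L : Fin k → P → P → Prop, (∀ i, IsLinearExtension (L i)) ∧
    ∀ a b, (∀ i, L i a b) → a ≤ b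

variable (P) in
/-- The dimension of `P`: the least number `k ≥ m` of linear extensions of `P` whose intersection is
the order of `P`. For `m = 0` this is the literal definition (for which a poset with one element has
dimension `0`), for `m = 1` at least one linear extension is required (so that a poset with one
element has dimension `1`); the two differ only for posets with at most one element. -/
noncomputable def dim (m : ℕ) : ℕ∞ :=
  sInf {n : ℕ∞ | ∃ k : ℕ, n = k ∧ m ≤ k ∧ HasRealizer P k}

variable (P) in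
/-- `P` is irreducible: deleting any single element lowers the dimension. -/
def Irreducible (m : ℕ) : Prop := ∀ x : P, dim {y : P // y ≠ x} m < dim P m

/-- `a` is join-irreducible: if `a` is the least upper bound of `S` then `a ∈ S`. -/
def JoinIrreducible (a : P) : Prop := ∀ S : Set P, IsLUB S a → a ∈ S

/-- `a` is meet-irreducible: if `a` is the greatest lower bound of `S` then `a ∈ S`. -/
def MeetIrreducible (a : P) : Prop := ∀ S : Set P, IsGLB S a → a ∈ S

/-- `⟨a, b⟩` is a critical pair: `a`, `b` are incomparable, every element strictly above `a` is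
strictly above `b`, and every element strictly below `b` is strictly below `a`. -/
def Critical (a b : P) : Prop :=
  ¬ a ≤ b ∧ ¬ b ≤ a ∧ (∀ c, a < c → b < c) ∧ ∀ c, c < b → c < a

end defs

section first

variable {P : Type*} [PartialOrder P]

/-- A meet-irreducible element is the first element of a critical pair or has an upper cover `z`
which together with it is an autonomous chain. -/
theorem first_or [Finite P] {x : P} (hM : MeetIrreducible x) :
    (∃ b, Critical x b) ∨ ∃ z, x < z ∧ (∀ w, x < w → z ≤ w) ∧ ∀ v, v < z → v ≤ x := by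
  have h0 : ¬ IsGLB {w | x < w} x := fun h => lt_irrefl x (hM _ h)
  obtain ⟨z, hz, hzx⟩ : ∃ z, (∀ w, x < w → z ≤ w) ∧ ¬ z ≤ x := by
    by_contra hcon
    push Not at hcon
    exact h0 ⟨fun w hw => le_of_lt hw, fun z hz => hcon z fun w hw => hz hw⟩
  have key : ∀ V : Set P, V.Nonempty → (∀ v ∈ V, ¬ v ≤ x ∧ ¬ x ≤ v ∧ ∀ w, x < w → v < w) →
      (∀ v ∈ V, ∀ w, w < v → ¬ w ≤ x → w ∈ V) → ∃ b, Critical x b := by
    intro V hV h1 h2
    obtain ⟨v, hv, hmin⟩ := (wellFounded_lt (α := P)).has_min V hV
    obtain ⟨h3, h4, h5⟩ := h1 v hv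
    refine ⟨v, h4, h3, h5, fun c hc => ?_⟩
    have h6 : c ≤ x := by
      by_contra h7
      exact hmin c (h2 v hv c hc h7) hc
    rcases h6.lt_or_eq with h | h
    · exact h
    · exact absurd (h ▸ hc.le) h4
  by_cases hxz : x ≤ z
  · have hlt : x < z := lt_of_le_of_ne hxz fun h => hzx h.ge
    by_cases hv : ∃ v, v < z ∧ ¬ v ≤ x
    · left
      obtain ⟨v, hv1, hv2⟩ := hv
      refine key {v | v < z ∧ ¬ v ≤ x} ⟨v, hv1, hv2⟩ ?_ ?_
      · rintro u ⟨hu1, hu2⟩
        refine ⟨hu2, fun h => ?_, fun w hw => lt_of_lt_of_le hu1 (hz w hw)⟩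
        have h1 : x < u := lt_of_le_of_ne h fun h => hu2 h.ge
        exact absurd (hz u h1) (not_le_of_gt hu1)
      · rintro u ⟨hu1, _⟩ w hw hwx
        exact ⟨hw.trans hu1, hwx⟩
    · right
      push Not at hv
      exact ⟨z, hlt, hz, hv⟩
  · left
    refine key {v | v ≤ z ∧ ¬ v ≤ x} ⟨z, le_rfl, hzx⟩ ?_ ?_
    · rintro u ⟨hu1, hu2⟩
      refine ⟨hu2, fun h => hxz (h.trans hu1), fun w hw => ?_⟩
      refine lt_of_le_of_ne (hu1.trans (hz w hw)) fun h => ?_
      exact hxz ((h ▸ hw.le : x ≤ u).trans hu1)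
    · rintro u ⟨hu1, _⟩ w hw hwx
      exact ⟨hw.le.trans hu1, hwx⟩

theorem dual_iff {a b : P} :
    Critical (OrderDual.toDual a) (OrderDual.toDual b) ↔ Critical b a := by
  constructor
  · rintro ⟨h1, h2, h3, h4⟩
    exact ⟨fun h => h1 h, fun h => h2 h, fun c hc => h4 (OrderDual.toDual c) hc,
      fun c hc => h3 (OrderDual.toDual c) hc⟩
  · rintro ⟨h1, h2, h3, h4⟩
    exact ⟨fun h => h1 h, fun h => h2 h, fun c hc => h4 (OrderDual.ofDual c) hc,
      fun c hc => h3 (OrderDual.ofDual c) hc⟩

/-- The dual statement. -/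
theorem second_or [Finite P] {x : P} (hJ : JoinIrreducible x) :
    (∃ a, Critical a x) ∨ ∃ z, z < x ∧ (∀ w, w < x → w ≤ z) ∧ ∀ v, z < v → x ≤ v := by
  have h : MeetIrreducible (P := Pᵒᵈ) (OrderDual.toDual x) := by
    intro S hS
    have h1 : IsLUB (OrderDual.toDual ⁻¹' S) x := ⟨fun a ha => hS.1 ha, fun a ha =>
      hS.2 (show OrderDual.toDual a ∈ lowerBounds S from fun b hb => ha hb)⟩
    exact hJ _ h1
  rcases first_or h with ⟨b, hb⟩ | ⟨z, h1, h2, h3⟩
  · left
    exact ⟨OrderDual.ofDual b, dual_iff.1 hb⟩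
  · right
    exact ⟨OrderDual.ofDual z, h1, fun w hw => h2 (OrderDual.toDual w) hw,
      fun v hv => h3 (OrderDual.toDual v) hv⟩

/-- Kelly: first elements are meet-irreducible. -/
theorem meet_of_first {a b : P} (h : Critical a b) : MeetIrreducible a := by
  intro S hS
  by_contra ha
  refine h.2.1 (hS.2 fun s hs => ?_)
  exact (h.2.2.1 s (lt_of_le_of_ne (hS.1 hs) fun h1 => ha (h1 ▸ hs))).le

/-- Kelly: second elements are join-irreducible. -/
theorem join_of_second {a b : P} (h : Critical a b) : JoinIrreducible b := by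
  intro S hS
  by_contra hb
  refine h.2.1 (hS.2 fun s hs => ?_)
  exact (h.2.2.2 s (lt_of_le_of_ne (hS.1 hs) fun h1 => hb (h1 ▸ hs))).le

end first

section insertion

variable {P : Type*} [PartialOrder P]

open Classical in
/-- The map which sends `z` to `x` and fixes the other elements. -/
noncomputable def pr {x z : P} (hxz : x ≠ z) (a : P) : {y : P // y ≠ z} :=
  if h : a = z then ⟨x, hxz⟩ else ⟨a, h⟩

theorem pr_z {x z : P} (hxz : x ≠ z) : ((pr hxz z : {y : P // y ≠ z}) : P) = x := by
  simp [pr]

theorem pr_ne {x z : P} (hxz : x ≠ z) {a : P} (h : a ≠ z) :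
    ((pr hxz a : {y : P // y ≠ z}) : P) = a := by
  simp [pr, h]

/-- If `x` and `z` form an autonomous chain then deleting `z` does not lower the dimension. -/
theorem insertion {x z : P} (hxz : x ≠ z) (hc : x ≤ z ∨ z ≤ x)
    (h1 : ∀ w, w ≠ x → w ≠ z → (w ≤ z ↔ w ≤ x)) (h2 : ∀ w, w ≠ x → w ≠ z → (z ≤ w ↔ x ≤ w))
    {k : ℕ} (hk : 1 ≤ k) (h : HasRealizer {y : P // y ≠ z} k) : HasRealizer P k := by
  obtain ⟨L, hL, hi⟩ := h
  have hpe : ∀ a b : P, pr hxz a = pr hxz b → a ≤ b ∨ b ≤ a := by
    intro a b hab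
    have h3 := congrArg Subtype.val hab
    by_cases ha : a = z
    · by_cases hb : b = z
      · left
        rw [ha, hb]
      · rw [ha, pr_z, pr_ne hxz hb] at h3
        rw [ha, ← h3]
        exact hc.symm
    · by_cases hb : b = z
      · rw [hb, pr_z, pr_ne hxz ha] at h3
        rw [hb, h3]
        exact hc
      · rw [pr_ne hxz ha, pr_ne hxz hb] at h3
        left
        rw [h3]
  have hle : ∀ a b : P, a ≤ b → (pr hxz a : {y : P // y ≠ z}) ≤ pr hxz b := by
    intro a b hab
    show ((pr hxz a : {y : P // y ≠ z}) : P) ≤ ((pr hxz b : {y : P // y ≠ z}) : P)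
    by_cases ha : a = z
    · by_cases hb : b = z
      · rw [ha, hb]
      · rw [ha, pr_z, pr_ne hxz hb]
        by_cases hbx : b = x
        · rw [hbx]
        · exact (h2 b hbx hb).1 (ha ▸ hab)
    · by_cases hb : b = z
      · rw [hb, pr_z, pr_ne hxz ha]
        by_cases hax : a = x
        · rw [hax]
        · exact (h1 a hax ha).1 (hb ▸ hab)
      · rw [pr_ne hxz ha, pr_ne hxz hb]
        exact hab
  refine ⟨fun i a b => L i (pr hxz a) (pr hxz b) ∧ (pr hxz a = pr hxz b → a ≤ b), fun i => ?_,
    fun a b hab => ?_⟩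
  · refine ⟨fun a => ⟨(hL i).refl _, fun _ => le_rfl⟩, ?_, ?_, ?_, ?_⟩
    · rintro a b c ⟨ha, ha'⟩ ⟨hb, hb'⟩
      refine ⟨(hL i).trans _ _ _ ha hb, fun hac => ?_⟩
      have h3 : pr hxz a = pr hxz b := (hL i).antisymm _ _ ha (by rw [hac]; exact hb)
      exact (ha' h3).trans (hb' (h3 ▸ hac))
    · rintro a b ⟨ha, ha'⟩ ⟨hb, hb'⟩
      have h3 : pr hxz a = pr hxz b := (hL i).antisymm _ _ ha hb
      exact le_antisymm (ha' h3) (hb' h3.symm)
    · intro a b
      by_cases hab : pr hxz a = pr hxz b
      · rcases hpe a b hab with h3 | h3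
        · left
          exact ⟨by rw [hab]; exact (hL i).refl _, fun _ => h3⟩
        · right
          exact ⟨by rw [hab]; exact (hL i).refl _, fun _ => h3⟩
      · rcases (hL i).total (pr hxz a) (pr hxz b) with h3 | h3
        · exact Or.inl ⟨h3, fun h4 => absurd h4 hab⟩
        · exact Or.inr ⟨h3, fun h4 => absurd h4.symm hab⟩
    · intro a b hab
      exact ⟨(hL i).extends_le _ _ (hle a b hab), fun _ => hab⟩
  · have h3 : (pr hxz a : {y : P // y ≠ z}) ≤ pr hxz b := hi _ _ fun i => (hab i).1
    have h4 : pr hxz a = pr hxz b → a ≤ b := (hab ⟨0, hk⟩).2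
    by_cases h5 : pr hxz a = pr hxz b
    · exact h4 h5
    have h6 : ((pr hxz a : {y : P // y ≠ z}) : P) ≤ ((pr hxz b : {y : P // y ≠ z}) : P) := h3
    by_cases ha : a = z
    · by_cases hb : b = z
      · rw [ha, hb]
      · rw [ha, pr_z, pr_ne hxz hb] at h6
        have hbx : b ≠ x := by
          intro hbx
          refine h5 (Subtype.ext ?_)
          rw [ha, pr_z, pr_ne hxz hb, hbx]
        rw [ha]
        exact (h2 b hbx hb).2 h6
    · by_cases hb : b = z
      · rw [hb, pr_z, pr_ne hxz ha] at h6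
        have hax : a ≠ x := by
          intro hax
          refine h5 (Subtype.ext ?_)
          rw [hb, pr_z, pr_ne hxz ha, hax]
        rw [hb]
        exact (h1 a hax ha).2 h6
      · rw [pr_ne hxz ha, pr_ne hxz hb] at h6
        exact h6

/-- An irreducible poset has no autonomous chain `{x, z}`, except in the degenerate case. -/
theorem no_chain {m : ℕ} (hP : Irreducible P m) {x z : P} (hxz : x ≠ z) (hc : x ≤ z ∨ z ≤ x)
    (h1 : ∀ w, w ≠ x → w ≠ z → (w ≤ z ↔ w ≤ x)) (h2 : ∀ w, w ≠ x → w ≠ z → (z ≤ w ↔ x ≤ w)) :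
    m = 0 ∧ ∀ w, w ≠ z → w = x := by
  obtain ⟨n, ⟨k, rfl, hmk, hk⟩, hlt⟩ := sInf_lt_iff.1 (hP z)
  rcases Nat.eq_zero_or_pos k with h0 | h0
  · subst h0
    refine ⟨by omega, fun w hw => ?_⟩
    obtain ⟨L, _, hi⟩ := hk
    have h3 : (⟨w, hw⟩ : {y : P // y ≠ z}) = ⟨x, hxz⟩ :=
      le_antisymm (hi _ _ fun i => i.elim0) (hi _ _ fun i => i.elim0)
    exact congrArg Subtype.val h3
  · have h3 : HasRealizer P k := insertion hxz hc h1 h2 h0 hk
    exact absurd hlt (not_lt_of_ge (sInf_le ⟨k, rfl, hmk, h3⟩))

end insertion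

variable {P : Type*} [PartialOrder P] [Finite P]

theorem exists_first {m : ℕ} (hP : Irreducible P m) {x : P} (hM : MeetIrreducible x)
    (h : m = 0 → JoinIrreducible x) : ∃ b, Critical x b := by
  rcases first_or hM with h1 | ⟨z, h1, h2, h3⟩
  · exact h1
  exfalso
  obtain ⟨h4, h5⟩ := no_chain hP h1.ne (Or.inl h1.le)
    (fun w hwx hwz => ⟨fun hw => h3 w (lt_of_le_of_ne hw hwz), fun hw => hw.trans h1.le⟩)
    (fun w hwx hwz => ⟨fun hw => h1.le.trans hw, fun hw => h2 w (lt_of_le_of_ne hw (Ne.symm hwx))⟩)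
  have h6 : IsLUB (∅ : Set P) x := by
    rw [isLUB_empty_iff]
    intro w
    by_cases hw : w = z
    · rw [hw]
      exact h1.le
    · rw [h5 w hw]
  exact h h4 ∅ h6

theorem exists_second {m : ℕ} (hP : Irreducible P m) {x : P} (hJ : JoinIrreducible x)
    (h : m = 0 → MeetIrreducible x) : ∃ a, Critical a x := by
  rcases second_or hJ with h1 | ⟨z, h1, h2, h3⟩
  · exact h1
  exfalso
  obtain ⟨h4, h5⟩ := no_chain hP h1.ne' (Or.inr h1.le)
    (fun w hwx hwz => ⟨fun hw => hw.trans h1.le, fun hw => h2 w (lt_of_le_of_ne hw hwx)⟩)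
    (fun w hwx hwz => ⟨fun hw => h3 w (lt_of_le_of_ne hw (Ne.symm hwz)), fun hw => h1.le.trans hw⟩)
  have h6 : IsGLB (∅ : Set P) x := by
    rw [isGLB_empty_iff]
    intro w
    by_cases hw : w = z
    · rw [hw]
      exact h1.le
    · rw [h5 w hw]
  exact h h4 ∅ h6

/-- Let `P` be a finite poset.

(1) If `P` is irreducible (with either convention for the dimension of a poset with one element)
then every doubly irreducible element of `P` is the first element of some critical pair and the
second element of some critical pair.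

(2) If `P` is irreducible (with the convention that every poset has dimension at least one) then the
first elements of the critical pairs are exactly the meet-irreducible elements of `P`, and the second
elements are exactly the join-irreducible elements. -/
theorem result {P : Type*} [PartialOrder P] [Finite P] :
    (∀ m : ℕ, m ≤ 1 → Irreducible P m → ∀ x : P, JoinIrreducible x → MeetIrreducible x →
      (∃ b, Critical x b) ∧ ∃ a, Critical a x) ∧
    (Irreducible P 1 → ∀ x : P, ((∃ b, Critical x b) ↔ MeetIrreducible x) ∧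
      ((∃ a, Critical a x) ↔ JoinIrreducible x)) := by
  refine ⟨fun m _ hP x hJ hM => ⟨exists_first hP hM fun _ => hJ, exists_second hP hJ fun _ => hM⟩,
    fun hP x => ⟨⟨fun ⟨b, hb⟩ => meet_of_first hb, fun hM => exists_first hP hM (by omega)⟩,
      ⟨fun ⟨a, ha⟩ => join_of_second ha, fun hJ => exists_second hP hJ (by omega)⟩⟩⟩

end Pool.Agent.Results.MP_ba261c_co.FirstAndSecond
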